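import Mathlib
import Pool.Agent.Results.MP_f45ea1_an.SemiNotAlmost

/-!
# Semi-greedy bases which are not almost-greedy in nearly Banach spaces

For Markushevich bases of Banach spaces semi-greedy and almost-greedy are equivalent. We show that
this fails for quasi-norms with modulus of concavity arbitrarily close to `1`: there is one space
with one basis and, for each `κ > 1`, a complete quasi-norm with modulus of concavity at most `κ`,
all of them equivalent, such that the basis is semi-greedy and not almost-greedy. Moreover the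
quasi-norms are invariant under all changes of the order of the basis.

The quasi-norm is `sup_k (‖a‖₁ + η |F_k a|)`, where `F_k a = ∑ a_n min (log (‖a‖₁ / |a_n|)) k` and
`5 η ≤ κ - 1`, on the space of the file `SemiNotAlmost`, where `η = 1`.
-/

set_option autoImplicit false

open scoped BigOperators ENNReal

namespace Pool.Agent.Results.MP_f45ea1_an.NearlyBanach

open Pool.Agent.Results.MP_f45ea1_an.SemiNotAlmost

/-! ### Equivalent quasi-norms -/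

section transfer

variable {𝕜 : Type} [RCLike 𝕜] {X : Type} [AddCommGroup X] [Module 𝕜 X]

/-- infima of equivalent functions -/
theorem inf_le {ι : Type} (P : ι → Prop) (hP : ∃ i, P i) (u v : ι → ℝ) (c : ℝ) (hc : 0 < c)
    (hu : ∀ i, 0 ≤ u i) (huv : ∀ i, u i ≤ c * v i) :
    sInf {r : ℝ | ∃ i, P i ∧ r = u i} ≤ c * sInf {r : ℝ | ∃ i, P i ∧ r = v i} := by
  have hbdd : BddBelow {r : ℝ | ∃ i, P i ∧ r = u i} := by
    refine ⟨0, ?_⟩
    rintro _ ⟨i, -, rfl⟩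
    exact hu i
  have hne : {r : ℝ | ∃ i, P i ∧ r = v i}.Nonempty := by
    obtain ⟨i, hi⟩ := hP
    exact ⟨v i, i, hi, rfl⟩
  have h1 : sInf {r : ℝ | ∃ i, P i ∧ r = u i} / c ≤ sInf {r : ℝ | ∃ i, P i ∧ r = v i} := by
    refine le_csInf hne ?_
    rintro _ ⟨i, hi, rfl⟩
    rw [div_le_iff₀ hc, mul_comm]
    exact (csInf_le hbdd ⟨i, hi, rfl⟩).trans (huv i)
  rw [div_le_iff₀ hc, mul_comm] at h1
  exact h1

theorem semi_transfer (p q : X → ℝ) (e : ℕ → X) (f : ℕ → X →ₗ[𝕜] 𝕜) (c c' : ℝ) (hc : 0 < c)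
    (hc' : 0 < c') (hp : ∀ x, 0 ≤ p x) (hpq : ∀ x, p x ≤ c * q x) (hqp : ∀ x, q x ≤ c' * p x)
    (h : SemiGreedy p e f) : SemiGreedy q e f := by
  obtain ⟨C, hC⟩ := h
  refine ⟨c' * (|C| * c), fun x A hA => ?_⟩
  obtain ⟨a, ha⟩ := hC x A hA
  refine ⟨a, ?_⟩
  have h1 : sigma 𝕜 p e A.card x ≤ c * sigma 𝕜 q e A.card x := by
    have h2 := inf_le (ι := Finset ℕ × (ℕ → 𝕜)) (fun i => i.1.card ≤ A.card) ⟨(∅, 0), by simp⟩
      (fun i => p (x - ∑ n ∈ i.1, i.2 n • e n)) (fun i => q (x - ∑ n ∈ i.1, i.2 n • e n)) c hc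
      (fun i => hp _) (fun i => hpq _)
    have h3 : ∀ r : X → ℝ, {y : ℝ | ∃ i : Finset ℕ × (ℕ → 𝕜), i.1.card ≤ A.card ∧
        y = r (x - ∑ n ∈ i.1, i.2 n • e n)} = {y : ℝ | ∃ (B : Finset ℕ) (a : ℕ → 𝕜),
        B.card ≤ A.card ∧ y = r (x - ∑ n ∈ B, a n • e n)} := by
      intro r
      ext y
      constructor
      · rintro ⟨i, h4, h5⟩
        exact ⟨i.1, i.2, h4, h5⟩
      · rintro ⟨B, a, h4, h5⟩
        exact ⟨(B, a), h4, h5⟩
    rw [h3 p, h3 q] at h2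
    exact h2
  have h0 : 0 ≤ sigma 𝕜 p e A.card x := by
    refine Real.sInf_nonneg ?_
    rintro _ ⟨B, a, -, rfl⟩
    exact hp _
  calc q (x - ∑ n ∈ A, a n • e n) ≤ c' * p (x - ∑ n ∈ A, a n • e n) := hqp _
    _ ≤ c' * (C * sigma 𝕜 p e A.card x) := mul_le_mul_of_nonneg_left ha hc'.le
    _ ≤ c' * (|C| * sigma 𝕜 p e A.card x) :=
        mul_le_mul_of_nonneg_left (mul_le_mul_of_nonneg_right (le_abs_self C) h0) hc'.le
    _ ≤ c' * (|C| * (c * sigma 𝕜 q e A.card x)) :=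
        mul_le_mul_of_nonneg_left (mul_le_mul_of_nonneg_left h1 (abs_nonneg C)) hc'.le
    _ = c' * (|C| * c) * sigma 𝕜 q e A.card x := by ring

theorem almost_transfer (p q : X → ℝ) (e : ℕ → X) (f : ℕ → X →ₗ[𝕜] 𝕜) (c c' : ℝ) (hc : 0 < c)
    (hc' : 0 < c') (hp : ∀ x, 0 ≤ p x) (hpq : ∀ x, p x ≤ c * q x) (hqp : ∀ x, q x ≤ c' * p x)
    (h : AlmostGreedy p e f) : AlmostGreedy q e f := by
  obtain ⟨C, hC⟩ := h
  refine ⟨c' * (|C| * c), fun x A hA => ?_⟩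
  have ha := hC x A hA
  have h1 := inf_le (fun B : Finset ℕ => B.card ≤ A.card) ⟨∅, by simp⟩
      (fun B => p (x - proj e f B x)) (fun B => q (x - proj e f B x)) c hc
      (fun i => hp _) (fun i => hpq _)
  have h0 : 0 ≤ sInf {r : ℝ | ∃ B : Finset ℕ, B.card ≤ A.card ∧ r = p (x - proj e f B x)} := by
    refine Real.sInf_nonneg ?_
    rintro _ ⟨B, -, rfl⟩
    exact hp _
  calc q (x - proj e f A x) ≤ c' * p (x - proj e f A x) := hqp _
    _ ≤ c' * (C * sInf {r : ℝ | ∃ B : Finset ℕ, B.card ≤ A.card ∧ r = p (x - proj e f B x)}) :=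
        mul_le_mul_of_nonneg_left ha hc'.le
    _ ≤ c' * (|C| * sInf {r : ℝ | ∃ B : Finset ℕ, B.card ≤ A.card ∧
          r = p (x - proj e f B x)}) :=
        mul_le_mul_of_nonneg_left (mul_le_mul_of_nonneg_right (le_abs_self C) h0) hc'.le
    _ ≤ c' * (|C| * (c * sInf {r : ℝ | ∃ B : Finset ℕ, B.card ≤ A.card ∧
          r = q (x - proj e f B x)})) :=
        mul_le_mul_of_nonneg_left (mul_le_mul_of_nonneg_left h1 (abs_nonneg C)) hc'.le
    _ = _ := by ring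

end transfer

/-! ### The quasi-norms -/

section space

variable {𝕜 : Type} [RCLike 𝕜]

/-- the pieces -/
noncomputable def TT (η : ℝ) (k : ℕ) (a : L1 𝕜) : ℝ := ‖a‖ + η * ‖F k a‖

/-- the quasi-norm with the parameter `η` -/
noncomputable def QQ (η : ℝ) (a : XX 𝕜) : ℝ := ⨆ k, TT η k (a : L1 𝕜)

variable {η : ℝ}

theorem TT_le_T (h1 : η ≤ 1) (k : ℕ) (a : L1 𝕜) : TT η k a ≤ T k a := by
  unfold TT T
  have := mul_le_mul_of_nonneg_right h1 (norm_nonneg (F k a))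
  linarith

theorem T_le_TT (h1 : η ≤ 1) (k : ℕ) (a : L1 𝕜) : η * T k a ≤ TT η k a := by
  unfold TT T
  have := mul_le_mul_of_nonneg_right h1 (norm_nonneg a)
  linarith

theorem bddQ (h1 : η ≤ 1) (a : XX 𝕜) : BddAbove (Set.range fun k => TT η k (a : L1 𝕜)) := by
  refine ⟨q a, ?_⟩
  rintro _ ⟨k, rfl⟩
  exact (TT_le_T h1 k _).trans (T_le_q k a)

theorem TT_le_QQ (h1 : η ≤ 1) (k : ℕ) (a : XX 𝕜) : TT η k (a : L1 𝕜) ≤ QQ η a :=
  le_ciSup (bddQ h1 a) k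

theorem QQ_le {a : XX 𝕜} {R : ℝ} (h : ∀ k, TT η k (a : L1 𝕜) ≤ R) : QQ η a ≤ R := ciSup_le h

theorem QQ_le_q (h1 : η ≤ 1) (a : XX 𝕜) : QQ η a ≤ q a :=
  QQ_le fun k => (TT_le_T h1 k _).trans (T_le_q k a)

theorem q_le_QQ (h0 : 0 < η) (h1 : η ≤ 1) (a : XX 𝕜) : q a ≤ η⁻¹ * QQ η a := by
  refine q_le fun k => ?_
  rw [← div_eq_inv_mul, le_div_iff₀ h0, mul_comm]
  exact (T_le_TT h1 k _).trans (TT_le_QQ h1 k a)

theorem QQ_nonneg (h0 : 0 < η) (h1 : η ≤ 1) (a : XX 𝕜) : 0 ≤ QQ η a := by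
  refine le_trans ?_ (TT_le_QQ h1 0 a)
  unfold TT
  have := norm_nonneg (a : L1 𝕜)
  have := mul_nonneg h0.le (norm_nonneg (F 0 (a : L1 𝕜)))
  linarith

theorem TT_add (h0 : 0 < η) (k : ℕ) (a b : L1 𝕜) :
    TT η k (a + b) ≤ (1 + 5 * η) * (TT η k a + TT η k b) := by
  unfold TT
  have h1 := F_add k a b
  have h2 := norm_add_le a b
  have h3 : F k (a + b) = (F k (a + b) - F k a - F k b) + F k a + F k b := by ring
  have h4 := norm_add_le ((F k (a + b) - F k a - F k b) + F k a) (F k b)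
  have h5 := norm_add_le (F k (a + b) - F k a - F k b) (F k a)
  rw [← h3] at h4
  have h6 : ‖F k (a + b)‖ ≤ 5 * (‖a‖ + ‖b‖) + ‖F k a‖ + ‖F k b‖ := by linarith
  have h7 := mul_le_mul_of_nonneg_left h6 h0.le
  have h8 : 0 ≤ 5 * η * (η * ‖F k a‖ + η * ‖F k b‖) := by positivity
  nlinarith [h7, h8, h2]

theorem QQ_add (h0 : 0 < η) (h1 : η ≤ 1) (a b : XX 𝕜) :
    QQ η (a + b) ≤ (1 + 5 * η) * (QQ η a + QQ η b) :=
  QQ_le fun k => (TT_add h0 k (a : L1 𝕜) (b : L1 𝕜)).trans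
    (mul_le_mul_of_nonneg_left (add_le_add (TT_le_QQ h1 k a) (TT_le_QQ h1 k b)) (by linarith))

theorem QQ_smul (c : 𝕜) (a : XX 𝕜) : QQ η (c • a) = ‖c‖ * QQ η a := by
  unfold QQ
  rw [Real.mul_iSup_of_nonneg (norm_nonneg c)]
  congr 1
  funext k
  show ‖c • (a : L1 𝕜)‖ + η * ‖F k (c • (a : L1 𝕜))‖ = _
  unfold TT
  rw [F_smul, norm_smul, norm_mul]
  ring

theorem isQB (h0 : 0 < η) (h1 : η ≤ 1) : IsQuasiBanach 𝕜 (QQ (𝕜 := 𝕜) η) where
  nonneg := QQ_nonneg h0 h1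
  eq_zero_iff x := by
    constructor
    · intro h
      have h2 := q_le_QQ h0 h1 x
      rw [h, mul_zero] at h2
      exact (isQuasiBanach.eq_zero_iff x).1 (le_antisymm h2 (q_nonneg x))
    · intro h
      refine le_antisymm ?_ (QQ_nonneg h0 h1 x)
      have h2 := QQ_le_q h1 x
      rwa [(isQuasiBanach.eq_zero_iff x).2 h] at h2
  smul := QQ_smul
  quasi_triangle := ⟨1 + 5 * η, QQ_add h0 h1⟩
  complete := by
    intro u hu
    obtain ⟨x, hx⟩ := complete u (fun δ hδ => by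
      obtain ⟨N, hN⟩ := hu (η * δ) (mul_pos h0 hδ)
      refine ⟨N, fun m hm n hn => ?_⟩
      have h2 := hN m hm n hn
      refine (q_le_QQ h0 h1 _).trans_lt ?_
      rw [← div_eq_inv_mul, div_lt_iff₀ h0, mul_comm]
      exact h2)
    refine ⟨x, fun δ hδ => ?_⟩
    obtain ⟨N, hN⟩ := hx δ hδ
    exact ⟨N, fun n hn => (QQ_le_q h1 _).trans_lt (hN n hn)⟩

theorem isMB (h0 : 0 < η) (h1 : η ≤ 1) :
    IsSemiNormalizedMBasis (QQ (𝕜 := 𝕜) η) (e 𝕜) (f 𝕜) where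
  biorthogonal := f_e
  dense_span x δ hδ := by
    obtain ⟨y, hy, h⟩ := isSemiNormalizedMBasis.dense_span x δ hδ
    exact ⟨y, hy, (QQ_le_q h1 _).trans_lt h⟩
  total := isSemiNormalizedMBasis.total
  bounded := by
    obtain ⟨C, hC⟩ := isSemiNormalizedMBasis (𝕜 := 𝕜).bounded
    refine ⟨|C| * η⁻¹, fun n => ⟨?_, fun x => ?_⟩⟩
    · have h2 : 1 ≤ η⁻¹ := (one_le_inv₀ h0).2 h1
      calc QQ η (e 𝕜 n) ≤ q (e 𝕜 n) := QQ_le_q h1 _
        _ ≤ C := (hC n).1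
        _ ≤ |C| * 1 := by rw [mul_one]; exact le_abs_self C
        _ ≤ |C| * η⁻¹ := mul_le_mul_of_nonneg_left h2 (abs_nonneg C)
    · calc ‖f 𝕜 n x‖ ≤ C * q x := (hC n).2 x
        _ ≤ |C| * q x := mul_le_mul_of_nonneg_right (le_abs_self C) (q_nonneg x)
        _ ≤ |C| * (η⁻¹ * QQ η x) := mul_le_mul_of_nonneg_left (q_le_QQ h0 h1 x) (abs_nonneg C)
        _ = |C| * η⁻¹ * QQ η x := by ring

theorem isSG (h0 : 0 < η) (h1 : η ≤ 1) : SemiGreedy (QQ (𝕜 := 𝕜) η) (e 𝕜) (f 𝕜) :=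
  semi_transfer q (QQ η) (e 𝕜) (f 𝕜) η⁻¹ 1 (inv_pos.2 h0) one_pos q_nonneg (q_le_QQ h0 h1)
    (fun x => by rw [one_mul]; exact QQ_le_q h1 x) semiGreedy

theorem notAG (h0 : 0 < η) (h1 : η ≤ 1) : ¬ AlmostGreedy (QQ (𝕜 := 𝕜) η) (e 𝕜) (f 𝕜) := fun h =>
  not_almostGreedy (almost_transfer (QQ η) q (e 𝕜) (f 𝕜) 1 η⁻¹ one_pos (inv_pos.2 h0)
    (QQ_nonneg h0 h1) (fun x => by rw [one_mul]; exact QQ_le_q h1 x) (q_le_QQ h0 h1) h)

/-- the quasi-norms do not depend on the order of the basis -/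
theorem QQ_moved (I : Finset ℕ) (g : ℕ → ℕ) (hg : Set.InjOn g I) (a : ℕ → 𝕜) :
    QQ η (∑ i ∈ I, a i • e 𝕜 (g i)) = QQ η (∑ i ∈ I, a i • e 𝕜 i) := by
  have hcoe : ∀ g : ℕ → ℕ, ((∑ i ∈ I, a i • e 𝕜 (g i) : XX 𝕜) : L1 𝕜) =
      ∑ i ∈ I, lp.single 1 (g i) (a i) := by
    intro g
    rw [AddSubmonoidClass.coe_finsetSum]
    refine Finset.sum_congr rfl fun i _ => ?_
    show a i • (lp.single 1 (g i) (1 : 𝕜) : L1 𝕜) = _
    rw [← lp.single_smul, smul_eq_mul, mul_one]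
  unfold QQ TT
  congr 1
  funext k
  have h1 := hcoe g
  have h2 := hcoe id
  simp only [id] at h2
  rw [h1, h2, norm_moved I g hg a, F_moved k I g hg a]
  have h3 := norm_moved I id (Set.injOn_id _) a
  have h4 := F_moved k I id (Set.injOn_id _) a
  simp only [id] at h3 h4
  rw [h3, h4]

end space

/-- There are a vector space `X` with vectors `e n` and functionals `f n` and, for each `κ > 1`, a
complete quasi-norm `Q κ` with modulus of concavity at most `κ` such that `(e n)` is a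
semi-normalized Markushevich basis of `(X, Q κ)` which is semi-greedy and not almost-greedy; these
quasi-norms are equivalent to each other and invariant under all injective maps of the indices. -/
theorem result (𝕜 : Type) [RCLike 𝕜] :
    ∃ (X : Type) (_ : AddCommGroup X) (_ : Module 𝕜 X) (e : ℕ → X) (f : ℕ → X →ₗ[𝕜] 𝕜)
      (Q : ℝ → X → ℝ),
      (∀ κ > 1, IsQuasiBanach 𝕜 (Q κ) ∧ (∀ x y, Q κ (x + y) ≤ κ * (Q κ x + Q κ y)) ∧
        IsSemiNormalizedMBasis (Q κ) e f ∧ SemiGreedy (Q κ) e f ∧ ¬ AlmostGreedy (Q κ) e f ∧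
        ∀ (I : Finset ℕ) (g : ℕ → ℕ), Set.InjOn g I → ∀ a : ℕ → 𝕜,
          Q κ (∑ i ∈ I, a i • e (g i)) = Q κ (∑ i ∈ I, a i • e i)) ∧
      ∀ κ > 1, ∀ κ' > 1, ∃ C : ℝ, ∀ x, Q κ x ≤ C * Q κ' x := by
  have h0 : ∀ κ : ℝ, 1 < κ → 0 < min ((κ - 1) / 5) 1 := fun κ hκ =>
    lt_min (by linarith) one_pos
  have h1 : ∀ κ : ℝ, min ((κ - 1) / 5) 1 ≤ 1 := fun κ => min_le_right _ _
  refine ⟨XX 𝕜, inferInstance, inferInstance, e 𝕜, f 𝕜, fun κ => QQ (min ((κ - 1) / 5) 1),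
    fun κ hκ => ⟨isQB (h0 κ hκ) (h1 κ), fun x y => ?_, isMB (h0 κ hκ) (h1 κ),
      isSG (h0 κ hκ) (h1 κ), notAG (h0 κ hκ) (h1 κ), fun I g hg a => QQ_moved I g hg a⟩,
    fun κ hκ κ' hκ' => ⟨(min ((κ' - 1) / 5) 1)⁻¹, fun x =>
      (QQ_le_q (h1 κ) x).trans (q_le_QQ (h0 κ' hκ') (h1 κ') x)⟩⟩
  refine (QQ_add (h0 κ hκ) (h1 κ) x y).trans ?_
  have h2 : min ((κ - 1) / 5) 1 ≤ (κ - 1) / 5 := min_le_left _ _
  exact mul_le_mul_of_nonneg_right (by linarith)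
    (add_nonneg (QQ_nonneg (h0 κ hκ) (h1 κ) x) (QQ_nonneg (h0 κ hκ) (h1 κ) y))

end Pool.Agent.Results.MP_f45ea1_an.NearlyBanach
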